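import Mathlib
import Pool.Agent.Helper669.Forcing

/-!
# The splitting principle, and its translation into the forcing language
-/

open Pool.Agent.Helper669.Forcing

namespace Pool.Agent.R591.SPL

/-- The principle, about actual objects. `W` is a linearly ordered set (it will be `ω₁`), `e` is an
enumeration by `N` of some sets of natural numbers.
* `unc`: `W` is not countable;
* `notCH`: there is no map from `W` onto the power set of `ℕ`;
* `onto`: `e` enumerates all subsets of `ℕ`, so `N` has at least `2 ^ ℵ₀` elements;
* `split`: for every family of relations `E ν` (`ν ∈ N`) on `W`, each of which holds for some pair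
  `α < β` above any given `δ`, there is one set `Z` which splits a pair of every `E ν`. -/
structure Principle (W : Type) [LinearOrder W] (N : Type) (e : N → Set ℕ) : Prop where
  unc : ∀ f : ℕ → W, ¬ Function.Surjective f
  notCH : ∀ w : W → Set ℕ, ¬ Function.Surjective w
  onto : Function.Surjective e
  split : ∀ E : N → W → W → Prop,
    (∀ ν δ, ∃ α β, (δ < α ∧ α < β) ∧ E ν α β) →
      ∃ Z : W → Prop, ∀ ν, ∃ α β, E ν α β ∧ ¬ (Z α ↔ Z β)

section

variable {P : Type} [Preorder P]

/-- `φ iff ψ`. -/
def fiff (φ ψ : Set P) : Set P := fand (fimp φ ψ) (fimp ψ φ)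

/-- The named subsets `x` and `y` of `ℕ` are equal. -/
def SameSet (x y : ℕ → Set P) : Set P := fall fun n => fiff (meets (x n)) (meets (y n))

end

/-- The translation of `Principle` into the forcing language of `P`; here `e` is an `N`-indexed
family of names for subsets of `ℕ`. -/
def ForcedPrinciple (P : Type) [Preorder P] (W : Type) [LinearOrder W] (N : Type)
    (e : N → ℕ → Set P) : Set P :=
  fand (fall fun f : ℕ → W → Set P => fnot (fand (IsFun f) (IsOnto f)))
  (fand (fall fun w : W → ℕ → Set P => fnot (fall fun x : ℕ → Set P => fex fun α : W =>
      SameSet x (w α)))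
  (fand (fall fun x : ℕ → Set P => fex fun ν : N => SameSet x (e ν))
    (fall fun E : N → W → W → Set P =>
      fimp
        (fall fun ν => fall fun δ => fex fun α => fex fun β =>
          fand (fground (δ < α ∧ α < β)) (meets (E ν α β)))
        (fex fun Z : W → Set P => fall fun ν => fex fun α => fex fun β =>
          fand (meets (E ν α β)) (fnot (fiff (meets (Z α)) (meets (Z β))))))))

end Pool.Agent.R591.SPL
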