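import Pool.Agent.R591.SPL.Poset
import Pool.Agent.R591.SPL.Defs

/-!
# The principle is forced
-/

open Set Cardinal Pool.Agent.Helper669.Forcing

namespace Pool.Agent.R591.SPL

/-- `ω₁` -/
abbrev W : Type := (ℵ₁ : Cardinal.{0}).ord.ToType

theorem W_Iio (x : W) : (Iio x).Countable := by
  rw [← Cardinal.le_aleph0_iff_set_countable]
  have h : #(Iio x) < #W := Cardinal.mk_Iio_lt x (by
    rw [Cardinal.mk_ord_toType]
    exact (Ordinal.type_toType _).symm)
  have h2 : #W = Order.succ ℵ₀ := by rw [Cardinal.mk_ord_toType, succ_aleph0]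
  exact Order.lt_succ_iff.1 (h.trans_eq h2)

theorem W_unc : ¬ (univ : Set W).Countable := by
  intro h
  have h1 : #(univ : Set W) ≤ ℵ₀ := h.le_aleph0
  rw [mk_univ, Cardinal.mk_ord_toType] at h1
  exact absurd aleph0_lt_aleph_one (not_lt.2 h1)

theorem W_bdd (s : Set W) (hs : s.Countable) : ∃ δ : W, ∀ x ∈ s, x < δ := by
  by_contra hcon
  push Not at hcon
  apply W_unc
  have : (univ : Set W) ⊆ ⋃ x ∈ s, Iic x := by
    intro δ _
    obtain ⟨x, hx, h⟩ := hcon δ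
    exact mem_iUnion₂.2 ⟨x, hx, h⟩
  refine (hs.biUnion (fun x _ => ?_)).mono this
  have : (Iic x : Set W) = insert x (Iio x) := by
    ext y; simp [le_iff_lt_or_eq, or_comm]
  rw [this]
  exact (W_Iio x).insert x

variable {D1 D2 : Type}

/-- `ω₁` is not collapsed -/
theorem unc_forced (f : ℕ → W → Set (Fn D1 × Cn D2)) (q : Fn D1 × Cn D2)
    (h : q ∈ fand (IsFun f) (IsOnto f)) : False := by
  classical
  let 𝒟 : ℕ → Set (Fn D1 × Cn D2) := fun n => {r | ∃ y, r ∈ meets (f n y)}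
  have hdown : ∀ n, Down (𝒟 n) := by
    rintro n r ⟨y, hy⟩ s hs
    exact ⟨y, down_meets _ _ hy _ hs⟩
  have hdense : ∀ n, ∀ p ≤ q, ∃ r ≤ p, r ∈ 𝒟 n := by
    intro n p hp
    obtain ⟨r, hr, y, hy⟩ := IsFun.total (down_IsFun _ _ h.1 _ hp) n
    exact ⟨r, hr, y, hy⟩
  obtain ⟨b, hb, 𝒜, h𝒜, hfus⟩ := fusion hdown q hdense
  have hW : Nonempty W := by
    by_contra hne
    rw [not_nonempty_iff] at hne
    exact W_unc (Set.to_countable _)
  let g : ℕ × Fn D1 → W := fun z => if h : ∃ y, (z.2, b) ∈ meets (f z.1 y) then h.choose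
    else Classical.arbitrary W
  obtain ⟨δ, hδ⟩ := W_bdd (g '' ((univ : Set ℕ) ×ˢ 𝒜)) ((countable_univ.prod h𝒜).image g)
  have hqb : (q.1, b) ≤ q := ⟨le_rfl, hb⟩
  obtain ⟨s, hs, n, hn⟩ := mem_fex.1 (h.2 δ) (q.1, b) hqb
  obtain ⟨a', ha', hD, t, ht1, ht2⟩ := hfus n s hs
  have hg : (a', b) ∈ meets (f n (g (n, a'))) := by
    have hD' : ∃ y, (a', b) ∈ meets (f n y) := hD
    show (a', b) ∈ meets (f n (if h : ∃ y, (a', b) ∈ meets (f n y) then h.choose
      else Classical.arbitrary W))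
    rw [dif_pos hD']
    exact hD'.choose_spec
  have h1 : t ∈ meets (f n δ) := down_meets _ _ hn _ ht1
  have h2 : t ∈ meets (f n (g (n, a'))) := down_meets _ _ hg _ ht2
  have ht : t ≤ q := ht1.trans (hs.trans hqb)
  have h3 := IsFun.unique (down_IsFun _ _ h.1 _ ht) h1 h2
  have h4 := hδ (g (n, a')) ⟨(n, a'), ⟨mem_univ _, ha'⟩, rfl⟩
  rw [← h3] at h4
  exact lt_irrefl _ h4

/-- names for sets of natural numbers: only the first coordinate matters -/
def rname {D1 : Type} (D2 : Type) (ν : ℕ → Set (Fn D1)) : ℕ → Set (Fn D1 × Cn D2) :=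
  fun n => {p | ∃ a ∈ ν n, p.1 ≤ a}

/-- every set of natural numbers has a name of the form `rname` -/
theorem onto_forced (x : ℕ → Set (Fn D1 × Cn D2)) (p : Fn D1 × Cn D2) :
    p ∈ fex fun ν : ℕ → Set (Fn D1) => SameSet x (rname D2 ν) := by
  rw [mem_fex]
  intro q _
  let 𝒟 : ℕ → Set (Fn D1 × Cn D2) := fun n => {r | r ∈ meets (x n) ∨ r ∈ fnot (meets (x n))}
  have hdown : ∀ n, Down (𝒟 n) := by
    rintro n r (hy | hy) s hs
    · exact Or.inl (down_meets _ _ hy _ hs)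
    · exact Or.inr (down_fnot _ _ hy _ hs)
  have hdense : ∀ n, ∀ p ≤ q, ∃ r ≤ p, r ∈ 𝒟 n := by
    intro n p _
    by_cases h : p ∈ fnot (meets (x n))
    · exact ⟨p, le_rfl, Or.inr h⟩
    · simp only [fnot, mem_ofPred_eq, not_forall, not_not] at h
      obtain ⟨r, hr, h⟩ := h
      exact ⟨r, hr, Or.inl h⟩
  obtain ⟨b, hb, 𝒜, _, hfus⟩ := fusion hdown q hdense
  refine ⟨(q.1, b), ⟨le_rfl, hb⟩, fun n => {a | (a, b) ∈ meets (x n)}, ?_⟩
  intro n
  constructor
  · rw [mem_fimp]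
    intro r hr hrx
    obtain ⟨a', _, hD, s, hs1, hs2⟩ := hfus n r hr
    refine ⟨s, hs1, ?_⟩
    have hsx : s ∈ meets (x n) := down_meets _ _ hrx _ hs1
    have h1 : (a', b) ∈ meets (x n) := by
      rcases hD with h | h
      · exact h
      · exact absurd hsx (h s hs2)
    exact meets_of_mem ⟨a', h1, hs2.1⟩
  · rw [mem_fimp]
    intro r hr hrx
    obtain ⟨s, hs, v, ⟨a, ha, hva⟩, hsv⟩ := hrx r le_rfl
    refine ⟨s, hs, ?_⟩
    have h1 : s ≤ (a, b) := ⟨hsv.1.trans hva, (hs.trans hr).2⟩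
    exact down_meets _ _ ha _ h1

/-- the `i`-th Cohen real -/
def creal {Θ D2 : Type} (i : Θ) : ℕ → Set (Fn (Θ × ℕ) × Cn D2) :=
  fun n => {p | p.1.f (i, n) = some true}

theorem not_meets_creal {Θ D2 : Type} {i : Θ} {n : ℕ} {p : Fn (Θ × ℕ) × Cn D2}
    (h : p.1.f (i, n) = some false) : p ∉ meets (creal (D2 := D2) i n) := by
  intro hp
  obtain ⟨r, hr, v, hv, hrv⟩ := hp p le_rfl
  have h1 := hrv.1 _ _ hv
  have h2 := hr.1 _ _ h
  rw [h1] at h2
  simp at h2

/-- CH fails -/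
theorem notCH_forced {Θ D2 : Type} (hΘ : 𝔠 < #Θ) (w : W → ℕ → Set (Fn (Θ × ℕ) × Cn D2))
    (q : Fn (Θ × ℕ) × Cn D2)
    (h : q ∈ fall fun x : ℕ → Set (Fn (Θ × ℕ) × Cn D2) => fex fun α : W => SameSet x (w α)) :
    False := by
  classical
  have h1 : ∀ i : Θ, ∃ p ≤ q, ∃ α, p ∈ SameSet (creal i) (w α) := by
    intro i
    obtain ⟨p, hp, α, hα⟩ := mem_fex.1 (h (creal i)) q le_rfl
    exact ⟨p, hp, α, hα⟩
  choose p hp α hα using h1
  have hWc : #W ≤ 𝔠 := by
    rw [Cardinal.mk_ord_toType, ← succ_aleph0]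
    exact Order.succ_le_of_lt Cardinal.aleph0_lt_continuum
  obtain ⟨T, c, R, hT, hTc, hTR, _, hTv⟩ := AP (χ := 𝔠) le_rfl (by
    intro τ hτ
    rw [← succ_aleph0, Order.lt_succ_iff] at hτ
    exact (Cardinal.power_le_power_left Cardinal.continuum_ne_zero hτ).trans
      Cardinal.continuum_power_aleph0.le) hΘ hWc α p
  obtain ⟨i, hi, j, hj, hij⟩ : ∃ i ∈ T, ∃ j ∈ T, i ≠ j := by
    by_contra hcon
    push Not at hcon
    apply hT
    have : T.Subsingleton := fun i hi j hj => hcon i hi j hj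
    exact (this.finite.lt_aleph0).le.trans Cardinal.aleph0_le_continuum
  obtain ⟨r, hri, hrj, _⟩ := exists_union (AP_compat hTR hTv hi hj hij)
  -- a new coordinate
  have hfin : {n : ℕ | r.1.f (i, n) ≠ none ∨ r.1.f (j, n) ≠ none}.Finite := by
    have h2 : {n : ℕ | r.1.f (i, n) ≠ none}.Finite :=
      r.1.sm.preimage (f := fun n : ℕ => (i, n)) (fun a _ b _ hab => (Prod.mk.inj hab).2)
    have h3 : {n : ℕ | r.1.f (j, n) ≠ none}.Finite :=
      r.1.sm.preimage (f := fun n : ℕ => (j, n)) (fun a _ b _ hab => (Prod.mk.inj hab).2)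
    exact h2.union h3
  obtain ⟨n, hn⟩ := hfin.exists_notMem
  simp only [ne_eq, mem_ofPred_eq, not_or, not_not] at hn
  obtain ⟨s, hs, hs1, hs2⟩ := exists_insert r (Sum.inl (i, n)) true hn.1
  have hsj : val s (Sum.inl (j, n)) = none := by
    rw [hs2 _ (by intro h; exact hij (Prod.mk.inj (Sum.inl.inj h)).1.symm)]
    exact hn.2
  obtain ⟨t, ht, ht1, ht2⟩ := exists_insert s (Sum.inl (j, n)) false hsj
  have ht_i : t.1.f (i, n) = some true := ht.1 _ _ hs1
  have ht_j : t.1.f (j, n) = some false := ht1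
  have hti : t ∈ SameSet (creal i) (w c) := by
    have h2 := hα i
    rw [hTc i hi] at h2
    intro m
    exact down_fand (down_fimp _ _) (down_fimp _ _) _ (h2 m) _ (ht.trans (hs.trans hri))
  have htj : t ∈ SameSet (creal j) (w c) := by
    have h2 := hα j
    rw [hTc j hj] at h2
    intro m
    exact down_fand (down_fimp _ _) (down_fimp _ _) _ (h2 m) _ (ht.trans (hs.trans hrj))
  obtain ⟨u, hu, hu2⟩ := mem_fimp.1 (hti n).1 t le_rfl (meets_of_mem ht_i)
  obtain ⟨v, hv, hv2⟩ := mem_fimp.1 (htj n).2 u hu hu2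
  exact not_meets_creal (hv.1 _ _ (hu.1 _ _ ht_j)) hv2

/-- the `i`-th generic subset of `ω₁` -/
def zname {D1 I : Type} (i : I) : W → Set (Fn D1 × Cn (I × W)) :=
  fun α => {p | p.2.f (i, α) = some true}

theorem split_aux {D1 I : Type} {i : I} {α β : W} {p : Fn D1 × Cn (I × W)}
    (h1 : p.2.f (i, α) = some true) (h2 : p.2.f (i, β) = some false) :
    p ∈ fnot (fiff (meets (zname (D1 := D1) i α)) (meets (zname i β))) := by
  intro q hq h
  obtain ⟨r, hr, hr2⟩ := mem_fimp.1 h.1 q le_rfl (meets_of_mem (hq.2 _ _ h1))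
  obtain ⟨s, hs, v, hv, hsv⟩ := hr2 r le_rfl
  have h3 := hsv.2 _ _ hv
  have h4 := hs.2 _ _ (hr.2 _ _ (hq.2 _ _ h2))
  rw [h3] at h4
  simp at h4

/-- the splitting property -/
theorem split_forced {D1 I N : Type} {χ : Cardinal.{0}} (hχ : 𝔠 ≤ χ) (hpow : ∀ τ < ℵ₁, χ ^ τ ≤ χ)
    (hI : χ < #I) (hN : #(N × W) ≤ χ) (E : N → W → W → Set (Fn D1 × Cn (I × W)))
    (p₁ : Fn D1 × Cn (I × W))
    (h : p₁ ∈ fall fun ν => fall fun δ => fex fun α => fex fun β =>
          fand (fground (δ < α ∧ α < β)) (meets (E ν α β))) :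
    ∃ r ≤ p₁, r ∈ fex fun Z : W → Set (Fn D1 × Cn (I × W)) => fall fun ν => fex fun α =>
      fex fun β => fand (meets (E ν α β)) (fnot (fiff (meets (Z α)) (meets (Z β)))) := by
  classical
  by_contra hcon
  push Not at hcon
  have hχ' : ℵ₀ ≤ χ := Cardinal.aleph0_le_continuum.trans hχ
  -- for every `i` the set `zname i` fails below some condition
  have h1 : ∀ i : I, ∃ p ≤ p₁, ∃ ν, ∀ r ≤ p, ∀ α β,
      r ∉ fand (meets (E ν α β)) (fnot (fiff (meets (zname i α)) (meets (zname i β)))) := by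
    intro i
    have h2 : p₁ ∉ fall fun ν => fex fun α => fex fun β =>
        fand (meets (E ν α β)) (fnot (fiff (meets (zname i α)) (meets (zname i β)))) := by
      intro h3
      exact hcon p₁ le_rfl (mem_fex_of_mem (zname i) (down_fall fun _ => down_fex _) h3)
    simp only [mem_fall, not_forall] at h2
    obtain ⟨ν, hν⟩ := h2
    rw [mem_fex] at hν
    push Not at hν
    obtain ⟨q, hq, hq2⟩ := hν
    refine ⟨q, hq, ν, ?_⟩
    intro r hr α β hrr
    exact hq2 r hr α (mem_fex_of_mem β (down_fand (down_meets _) (down_fnot _)) hrr)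
  choose p hp ν hν using h1
  -- bounds
  have h2 : ∀ i, ∃ δ : W, ∀ x ∈ Prod.snd '' {x : I × W | (p i).2.f x ≠ none}, x < δ := fun i =>
    W_bdd _ ((p i).2.sm.image _)
  choose δ hδ using h2
  obtain ⟨T, c, R, hT, hTc, hTR, hTd, hTv⟩ := AP hχ hpow hI hN (fun i => (ν i, δ i)) p
  have hTne : T.Nonempty := by
    by_contra h
    rw [not_nonempty_iff_eq_empty] at h
    exact hT (by rw [h]; simp)
  obtain ⟨i₀, hi₀⟩ := hTne
  -- find an edge
  have h3 := h c.1 c.2
  obtain ⟨q1, hq1, α, hα⟩ := mem_fex.1 h3 (p i₀) (hp i₀)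
  obtain ⟨p', hp', β, hαβ, hE⟩ := mem_fex.1 hα q1 le_rfl
  have hp'0 : p' ≤ p i₀ := hp'.trans hq1
  have hαβ' : c.2 < α ∧ α < β := hαβ
  -- choose `i`
  have hbad1 : #({i | ∃ x, (p'.2.f (i, x)) ≠ none} : Set I) ≤ χ := by
    have : {i | ∃ x, (p'.2.f (i, x)) ≠ none} = Prod.fst '' {x : I × W | p'.2.f x ≠ none} := by
      ext i; simp
    rw [this]
    exact ((p'.2.sm.image _).le_aleph0).trans hχ'
  have hbad2 : #({i | i ∈ T ∧ ((dom (p i) \ R) ∩ dom p').Nonempty} : Set I) ≤ χ := by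
    refine le_trans ?_ hχ'
    rw [Cardinal.le_aleph0_iff_set_countable]
    have h4 : ∀ i ∈ {i | i ∈ T ∧ ((dom (p i) \ R) ∩ dom p').Nonempty},
        ∃ x, x ∈ (dom (p i) \ R) ∩ dom p' := fun i hi => hi.2
    have : Nonempty (D1 ⊕ I × W) := ⟨Sum.inr (i₀, α)⟩
    choose! g hg using h4
    refine Set.MapsTo.countable_of_injOn (f := g) (t := dom p') (fun i hi => (hg i hi).2) ?_
      (dom_countable p')
    intro i hi j hj hij
    by_contra hne
    have h5 := (hg i hi).1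
    have h6 := (hg j hj).1
    rw [← hij] at h6
    have : g i ∈ R := by
      rw [← hTR i hi.1 j hj.1 hne]
      exact ⟨h5.1, h6.1⟩
    exact h5.2 this
  obtain ⟨i, hi⟩ := Pool.Agent.Helper292.SP.DS.exists_of_not_small
    (Pool.Agent.Helper292.SP.DS.not_small_diff hχ'
      (Pool.Agent.Helper292.SP.DS.not_small_diff hχ' hT hbad1) hbad2)
  obtain ⟨⟨hiT, hi1⟩, hi2⟩ := hi
  have hi1' : ∀ x, p'.2.f (i, x) = none := by
    intro x
    by_contra h
    exact hi1 ⟨x, h⟩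
  have hi2' : ∀ x ∈ dom (p i), x ∈ dom p' → x ∈ R := by
    intro x hx hx'
    by_contra hR
    exact hi2 ⟨hiT, x, ⟨hx, hR⟩, hx'⟩
  obtain ⟨r, hr1, hr2, hr3⟩ := exists_union (p := p i) (q := p') (by
    intro x v v' hv hv'
    have hx : x ∈ R := hi2' x (by simp [dom, hv]) (by simp [dom, hv'])
    have h4 := hTv i hiT i₀ hi₀ x hx
    rw [hv] at h4
    have h5 := le_iff.1 hp'0 x v h4.symm
    rw [hv'] at h5
    exact (Option.some.inj h5).symm)
  have hci : c = (ν i, δ i) := (hTc i hiT).symm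
  have hnone : ∀ x : W, c.2 < x → val r (Sum.inr (i, x)) = none := by
    intro x hx
    have h4 : (p i).2.f (i, x) = none := by
      by_contra hne
      have := hδ i x ⟨(i, x), hne, rfl⟩
      rw [hci] at hx
      exact absurd hx (not_lt.2 this.le)
    rw [hr3]
    simp [val, h4, hi1' x]
  obtain ⟨s, hs, hs1, hs2⟩ := exists_insert r (Sum.inr (i, α)) true (hnone α hαβ'.1)
  have hsβ : val s (Sum.inr (i, β)) = none := by
    rw [hs2 _ (by intro h; exact hαβ'.2.ne' (Prod.mk.inj (Sum.inr.inj h)).2)]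
    exact hnone β (hαβ'.1.trans hαβ'.2)
  obtain ⟨t, ht, ht1, ht2⟩ := exists_insert s (Sum.inr (i, β)) false hsβ
  have ht_α : t.2.f (i, α) = some true := ht.2 _ _ hs1
  have ht_β : t.2.f (i, β) = some false := ht1
  have htp : t ≤ p i := ht.trans (hs.trans hr1)
  have htp' : t ≤ p' := ht.trans (hs.trans hr2)
  apply hν i t htp α β
  refine ⟨?_, split_aux ht_α ht_β⟩
  have h4 : t ∈ meets (E c.1 α β) := down_meets _ _ hE _ htp'
  rw [hci] at h4
  exact h4

/-- The principle is forced by a product of Cohen forcings. -/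
theorem exists_forcing : ∃ (P : Type) (_ : Preorder P) (N : Type) (e : N → ℕ → Set P),
    Nonempty P ∧ ∀ p : P, p ∈ ForcedPrinciple P W N e := by
  let Θ : Type := Set (Set ℕ)
  let N : Type := ℕ → Set (Fn (Θ × ℕ))
  let I : Type := Set (Set (N × W))
  have hΘ : 𝔠 < #Θ := by
    rw [Cardinal.mk_set, Cardinal.mk_set, Cardinal.mk_nat, Cardinal.two_power_aleph0]
    exact Cardinal.cantor _
  have hWi : ℵ₀ ≤ #W := by
    rw [Cardinal.mk_ord_toType]
    exact aleph0_lt_aleph_one.le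
  have hNne : Nonempty N := ⟨fun _ => ∅⟩
  have hNW : ℵ₀ ≤ #(N × W) := by
    rw [Cardinal.mk_prod, Cardinal.lift_id, Cardinal.lift_id]
    exact hWi.trans (Cardinal.le_mul_left (Cardinal.mk_ne_zero N))
  let χ : Cardinal.{0} := 2 ^ #(N × W)
  have hχ : 𝔠 ≤ χ := by
    rw [← Cardinal.two_power_aleph0]
    exact Cardinal.power_le_power_left two_ne_zero hNW
  have hpow : ∀ τ < ℵ₁, χ ^ τ ≤ χ := by
    intro τ hτ
    rw [← succ_aleph0, Order.lt_succ_iff] at hτ
    show (2 ^ #(N × W)) ^ τ ≤ 2 ^ #(N × W)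
    rw [← Cardinal.power_mul]
    refine Cardinal.power_le_power_left two_ne_zero ?_
    exact (mul_le_mul' le_rfl (hτ.trans hNW)).trans (Cardinal.mul_eq_self hNW).le
  have hI : χ < #I := by
    show 2 ^ #(N × W) < #(Set (Set (N × W)))
    rw [Cardinal.mk_set, Cardinal.mk_set]
    exact Cardinal.cantor _
  have hN : #(N × W) ≤ χ := (Cardinal.cantor _).le
  refine ⟨Fn (Θ × ℕ) × Cn (I × W), inferInstance, N, rname (I × W),
    ⟨(⟨fun _ => none, by simp⟩, ⟨fun _ => none, by simp⟩)⟩, fun p => ⟨?_, ?_, ?_, ?_⟩⟩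
  · intro f q _ h
    exact unc_forced f q h
  · intro w q _ h
    exact notCH_forced hΘ w q h
  · intro x
    exact onto_forced x p
  · intro E
    rw [mem_fimp]
    intro q _ h
    exact split_forced hχ hpow hI hN E q h

end Pool.Agent.R591.SPL
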