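import Mathlib
import Pool.Agent.Helper669.Forcing
import Pool.Agent.Helper292.SP.Lib

/-!
# Finite partial functions times countable partial functions
-/

open Set Cardinal Pool.Agent.Helper669.Forcing

namespace Pool.Agent.R591.SPL

/-- Partial functions from `D` to `Bool` whose domain satisfies `Sm`. -/
structure PF (D : Type) (Sm : Set D → Prop) where
  f : D → Option Bool
  sm : Sm {x | f x ≠ none}

instance {D : Type} {Sm : Set D → Prop} : Preorder (PF D Sm) where
  le q p := ∀ x v, p.f x = some v → q.f x = some v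
  le_refl _ _ _ h := h
  le_trans _ _ _ h1 h2 x v h := h1 x v (h2 x v h)

/-- Finite partial functions to `Bool`. -/
abbrev Fn (D : Type) : Type := PF D Set.Finite

/-- Countable partial functions to `Bool`. -/
abbrev Cn (D : Type) : Type := PF D Set.Countable

variable {D D1 D2 : Type} {Sm : Set D → Prop}

theorem PF.le_def {p q : PF D Sm} : q ≤ p ↔ ∀ x v, p.f x = some v → q.f x = some v := Iff.rfl

theorem PF.exists_union (hu : ∀ s t, Sm s → Sm t → Sm (s ∪ t))
    (hs : ∀ s t, s ⊆ t → Sm t → Sm s) {p q : PF D Sm}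
    (h : ∀ x v v', p.f x = some v → q.f x = some v' → v = v') :
    ∃ r : PF D Sm, r ≤ p ∧ r ≤ q ∧ ∀ x, r.f x = (p.f x).orElse (fun _ => q.f x) := by
  refine ⟨⟨fun x => (p.f x).orElse (fun _ => q.f x), ?_⟩, ?_, ?_, fun _ => rfl⟩
  · refine hs _ _ ?_ (hu _ _ p.sm q.sm)
    intro x hx
    simp only [mem_ofPred_eq] at hx
    cases hp : p.f x with
    | none =>
      rw [hp] at hx
      exact Or.inr (by simpa using hx)
    | some v => exact Or.inl (by simp [hp])
  · intro x v hv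
    simp [hv]
  · intro x v hv
    cases hp : p.f x with
    | none => simp [hp, hv]
    | some w => simp [hp, h x w v hp hv]

theorem Finite_union (s t : Set D) : s.Finite → t.Finite → (s ∪ t).Finite := Set.Finite.union
theorem Finite_sub (s t : Set D) (h : s ⊆ t) (ht : t.Finite) : s.Finite := ht.subset h
theorem Countable_union (s t : Set D) : s.Countable → t.Countable → (s ∪ t).Countable :=
  Set.Countable.union
theorem Countable_sub (s t : Set D) (h : s ⊆ t) (ht : t.Countable) : s.Countable := ht.mono h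

/-- the combined partial function of a pair -/
def val (p : Fn D1 × Cn D2) : D1 ⊕ D2 → Option Bool := Sum.elim p.1.f p.2.f

theorem le_iff {p q : Fn D1 × Cn D2} :
    q ≤ p ↔ ∀ x v, val p x = some v → val q x = some v := by
  constructor
  · rintro ⟨h1, h2⟩ (x | x) v h
    · exact h1 x v h
    · exact h2 x v h
  · intro h
    exact ⟨fun x v hx => h (Sum.inl x) v hx, fun x v hx => h (Sum.inr x) v hx⟩

/-- the domain -/
def dom (p : Fn D1 × Cn D2) : Set (D1 ⊕ D2) := {x | val p x ≠ none}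

theorem dom_countable (p : Fn D1 × Cn D2) : (dom p).Countable := by
  have : dom p = Sum.inl '' {x | p.1.f x ≠ none} ∪ Sum.inr '' {x | p.2.f x ≠ none} := by
    ext x
    rcases x with x | x <;> simp [dom, val]
  rw [this]
  exact (p.1.sm.countable.image _).union (p.2.sm.image _)

theorem exists_union {p q : Fn D1 × Cn D2}
    (h : ∀ x v v', val p x = some v → val q x = some v' → v = v') :
    ∃ r : Fn D1 × Cn D2, r ≤ p ∧ r ≤ q ∧ ∀ x, val r x = (val p x).orElse (fun _ => val q x) := by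
  obtain ⟨r1, h1, h2, h3⟩ := PF.exists_union Finite_union Finite_sub (p := p.1) (q := q.1)
    (fun x v v' => h (Sum.inl x) v v')
  obtain ⟨r2, h1', h2', h3'⟩ := PF.exists_union Countable_union Countable_sub (p := p.2) (q := q.2)
    (fun x v v' => h (Sum.inr x) v v')
  refine ⟨(r1, r2), ⟨h1, h1'⟩, ⟨h2, h2'⟩, ?_⟩
  rintro (x | x)
  · exact h3 x
  · exact h3' x

theorem exists_single (x : D1 ⊕ D2) (v : Bool) :
    ∃ r : Fn D1 × Cn D2, val r x = some v ∧ ∀ y, y ≠ x → val r y = none := by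
  classical
  rcases x with x | x
  · refine ⟨(⟨fun y => if y = x then some v else none, ?_⟩, ⟨fun _ => none, by simp⟩), ?_, ?_⟩
    · refine (Set.finite_singleton x).subset ?_
      intro y hy
      by_contra hne
      simp only [mem_singleton_iff] at hne
      simp [hne] at hy
    · simp [val]
    · rintro (y | y) hy
      · have : y ≠ x := fun h => hy (by rw [h])
        simp [val, this]
      · simp [val]
  · refine ⟨(⟨fun _ => none, by simp⟩, ⟨fun y => if y = x then some v else none, ?_⟩), ?_, ?_⟩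
    · refine (Set.countable_singleton x).mono ?_
      intro y hy
      by_contra hne
      simp only [mem_singleton_iff] at hne
      simp [hne] at hy
    · simp [val]
    · rintro (y | y) hy
      · simp [val]
      · have : y ≠ x := fun h => hy (by rw [h])
        simp [val, this]

theorem exists_insert (p : Fn D1 × Cn D2) (x : D1 ⊕ D2) (v : Bool) (hx : val p x = none) :
    ∃ r ≤ p, val r x = some v ∧ ∀ y, y ≠ x → val r y = val p y := by
  obtain ⟨s, hs1, hs2⟩ := exists_single (D1 := D1) (D2 := D2) x v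
  obtain ⟨r, h1, h2, h3⟩ := exists_union (p := p) (q := s) (by
    intro y w w' hw hw'
    by_cases hy : y = x
    · subst hy; rw [hx] at hw; exact absurd hw (by simp)
    · rw [hs2 y hy] at hw'; exact absurd hw' (by simp))
  refine ⟨r, h1, ?_, ?_⟩
  · rw [h3, hx, hs1]; rfl
  · intro y hy
    rw [h3, hs2 y hy]
    cases val p y <;> rfl

theorem pow_le {χ : Cardinal.{0}} (hχ : 𝔠 ≤ χ) {R : Type} (hR : #R ≤ ℵ₀) :
    #(R → Option Bool) ≤ χ := by
  have h1 : #(R → Option Bool) = #(Option Bool) ^ #R := by simp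
  rw [h1]
  calc #(Option Bool) ^ #R ≤ 𝔠 ^ #R := by
        refine Cardinal.power_le_power_right ?_
        exact (Cardinal.mk_le_aleph0).trans Cardinal.aleph0_le_continuum
    _ ≤ 𝔠 ^ ℵ₀ := Cardinal.power_le_power_left Cardinal.continuum_ne_zero hR
    _ = 𝔠 := Cardinal.continuum_power_aleph0
    _ ≤ χ := hχ

/-- pigeonhole principle and Delta-system lemma for conditions -/
theorem AP {χ : Cardinal.{0}} (hχ : 𝔠 ≤ χ) (hpow : ∀ τ < ℵ₁, χ ^ τ ≤ χ) {E : Type} (hE : χ < #E)
    {C : Type} (hC : #C ≤ χ) (g : E → C) (p : E → Fn D1 × Cn D2) :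
    ∃ (T : Set E) (c : C) (R : Set (D1 ⊕ D2)), (¬ #T ≤ χ) ∧ (∀ e ∈ T, g e = c) ∧
      (∀ e ∈ T, ∀ e' ∈ T, e ≠ e' → dom (p e) ∩ dom (p e') = R) ∧
      (∀ e ∈ T, R ⊆ dom (p e)) ∧
      (∀ e ∈ T, ∀ e' ∈ T, ∀ x ∈ R, val (p e) x = val (p e') x) := by
  have hχ' : ℵ₀ ≤ χ := Cardinal.aleph0_le_continuum.trans hχ
  have hℵ : ℵ₁ ≤ χ := by
    refine le_trans ?_ hχ
    rw [← succ_aleph0]
    exact Order.succ_le_of_lt Cardinal.aleph0_lt_continuum
  have hT0 : ¬ #(univ : Set E) ≤ χ := by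
    rw [mk_univ]; exact not_le.2 hE
  obtain ⟨T1, c, _, hT1, hc⟩ := Pool.Agent.Helper292.SP.pigeon hχ' univ hT0 g hC
  obtain ⟨T2, R, hT21, hT2, hR⟩ := Pool.Agent.Helper292.SP.delta_sys hχ' hℵ hpow T1 hT1
    (fun e => dom (p e)) (fun e => by
      have : #(dom (p e)) ≤ ℵ₀ := (dom_countable (p e)).le_aleph0
      exact this.trans_lt aleph0_lt_aleph_one)
  have hne : ∀ e ∈ T2, ∃ e' ∈ T2, e ≠ e' := by
    intro e he
    by_contra hcon
    push Not at hcon
    apply hT2
    have : T2 ⊆ {e} := fun x hx => (hcon x hx).symm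
    exact (Cardinal.mk_le_mk_of_subset this).trans (by
      rw [mk_singleton]; exact Cardinal.one_lt_aleph0.le.trans hχ')
  have hRdom : ∀ e ∈ T2, R ⊆ dom (p e) := by
    intro e he
    obtain ⟨e', he', hee'⟩ := hne e he
    rw [← hR e he e' he' hee']
    exact inter_subset_left
  have hRc : #R ≤ ℵ₀ := by
    have hT2ne : T2.Nonempty := by
      by_contra h
      rw [not_nonempty_iff_eq_empty] at h
      exact hT2 (by rw [h]; simp)
    obtain ⟨e, he⟩ := hT2ne
    exact ((dom_countable (p e)).mono (hRdom e he)).le_aleph0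
  obtain ⟨T3, z, hT32, hT3, hz⟩ := Pool.Agent.Helper292.SP.pigeon hχ' T2 hT2
    (fun e => fun x : R => val (p e) x.1) (pow_le hχ hRc)
  refine ⟨T3, c, R, hT3, fun e he => hc e (hT21 (hT32 he)),
    fun e he e' he' => hR e (hT32 he) e' (hT32 he'), fun e he => hRdom e (hT32 he), ?_⟩
  intro e he e' he' x hx
  have h1 := congrFun (hz e he) ⟨x, hx⟩
  have h2 := congrFun (hz e' he') ⟨x, hx⟩
  simp only at h1 h2
  rw [h1, h2]

/-- two conditions of a Delta system are compatible -/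
theorem AP_compat {E : Type} {p : E → Fn D1 × Cn D2} {T : Set E} {R : Set (D1 ⊕ D2)}
    (h1 : ∀ e ∈ T, ∀ e' ∈ T, e ≠ e' → dom (p e) ∩ dom (p e') = R)
    (h2 : ∀ e ∈ T, ∀ e' ∈ T, ∀ x ∈ R, val (p e) x = val (p e') x)
    {e e' : E} (he : e ∈ T) (he' : e' ∈ T) (hne : e ≠ e') :
    ∀ x v v', val (p e) x = some v → val (p e') x = some v' → v = v' := by
  intro x v v' hv hv'
  have hx : x ∈ R := by
    rw [← h1 e he e' he' hne]
    exact ⟨by simp [dom, hv], by simp [dom, hv']⟩
  have := h2 e he e' he' x hx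
  rw [hv, hv'] at this
  exact Option.some.inj this

/-! ### The fusion lemma -/

theorem finite_Fn (T : Set D1) (hT : T.Finite) : {a : Fn D1 | {x | a.f x ≠ none} ⊆ T}.Finite := by
  classical
  have hT' : Finite T := hT
  have : Finite {a : Fn D1 // {x | a.f x ≠ none} ⊆ T} := by
    refine Finite.of_injective (fun a => fun x : T => a.1.f x.1) ?_
    rintro ⟨a, ha⟩ ⟨b, hb⟩ hab
    simp only at hab
    have hf : a.f = b.f := by
      funext x
      by_cases hx : x ∈ T
      · exact congrFun hab ⟨x, hx⟩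
      · have h1 : a.f x = none := by
          by_contra h; exact hx (ha h)
        have h2 : b.f x = none := by
          by_contra h; exact hx (hb h)
        rw [h1, h2]
    cases a; cases b
    simp only at hf
    subst hf
    rfl
  exact this

/-- finitely many requirements -/
theorem fusion_finite {𝒟 : ℕ → Set (Fn D1 × Cn D2)} (hdown : ∀ n, Down (𝒟 n))
    {p₀ : Fn D1 × Cn D2} (hdense : ∀ n, ∀ p ≤ p₀, ∃ q ≤ p, q ∈ 𝒟 n)
    (S : Finset (Fn D1 × ℕ)) (b : Cn D2) (hb : b ≤ p₀.2) :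
    ∃ b' ≤ b, ∃ T : Set D1, T.Finite ∧ ∀ s ∈ S, s.1 ≤ p₀.1 →
      ∃ a' ≤ s.1, {x | a'.f x ≠ none} ⊆ T ∧ (a', b') ∈ 𝒟 s.2 := by
  classical
  induction S using Finset.induction_on with
  | empty => exact ⟨b, le_rfl, ∅, Set.finite_empty, by simp⟩
  | insert s S hs ih =>
    obtain ⟨b1, hb1, T, hT, h⟩ := ih
    by_cases hsp : s.1 ≤ p₀.1
    · obtain ⟨⟨a', b'⟩, hq, hq2⟩ := hdense s.2 (s.1, b1) ⟨hsp, hb1.trans hb⟩
      refine ⟨b', hq.2.trans hb1, T ∪ {x | a'.f x ≠ none}, hT.union a'.sm, ?_⟩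
      intro t ht htp
      rcases Finset.mem_insert.1 ht with rfl | ht
      · exact ⟨a', hq.1, subset_union_right, hq2⟩
      · obtain ⟨a'', h1, h2, h3⟩ := h t ht htp
        exact ⟨a'', h1, h2.trans subset_union_left, hdown _ _ h3 _ ⟨le_rfl, hq.2⟩⟩
    · refine ⟨b1, hb1, T, hT, ?_⟩
      intro t ht htp
      rcases Finset.mem_insert.1 ht with rfl | ht
      · exact absurd htp hsp
      · exact h t ht htp

/-- countable unions of decreasing sequences -/
theorem exists_inf (b : ℕ → Cn D2) (hb : ∀ n, b (n + 1) ≤ b n) : ∃ c : Cn D2, ∀ n, c ≤ b n := by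
  classical
  have hmono : ∀ m n, m ≤ n → b n ≤ b m := by
    intro m n h
    induction n, h using Nat.le_induction with
    | base => exact le_rfl
    | succ n _ ih => exact (hb n).trans ih
  let f : D2 → Option Bool := fun x =>
    if h : ∃ n, (b n).f x ≠ none then (b h.choose).f x else none
  refine ⟨⟨f, ?_⟩, ?_⟩
  · refine (Set.countable_iUnion (fun n => (b n).sm)).mono ?_
    intro x hx
    by_cases h : ∃ n, (b n).f x ≠ none
    · exact mem_iUnion.2 h
    · simp only [f, h, dif_neg, not_false_iff, mem_ofPred_eq, ne_eq, not_true] at hx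
  · intro n x v hv
    have h : ∃ n, (b n).f x ≠ none := ⟨n, by simp [hv]⟩
    simp only [f, h, dif_pos]
    obtain ⟨w, hw⟩ := Option.ne_none_iff_exists'.1 h.choose_spec
    rcases le_total n h.choose with h1 | h1
    · exact hmono _ _ h1 x v hv
    · have h2 := hmono _ _ h1 x w hw
      rw [hv] at h2
      rw [hw, h2]

/-- The fusion lemma: below `p₀` the second coordinate can be strengthened such that countably many
requirements are decided by countably many first coordinates. -/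
theorem fusion {𝒟 : ℕ → Set (Fn D1 × Cn D2)} (hdown : ∀ n, Down (𝒟 n))
    (p₀ : Fn D1 × Cn D2) (hdense : ∀ n, ∀ p ≤ p₀, ∃ q ≤ p, q ∈ 𝒟 n) :
    ∃ b ≤ p₀.2, ∃ 𝒜 : Set (Fn D1), 𝒜.Countable ∧
      ∀ n, ∀ q ≤ (p₀.1, b), ∃ a' ∈ 𝒜, (a', b) ∈ 𝒟 n ∧ ∃ s ≤ q, s ≤ (a', b) := by
  classical
  -- one step
  have hstep : ∀ (k : ℕ) (st : {b : Cn D2 // b ≤ p₀.2} × {T : Set D1 // T.Finite}),
      ∃ st' : {b : Cn D2 // b ≤ p₀.2} × {T : Set D1 // T.Finite},
        st'.1.1 ≤ st.1.1 ∧ st.2.1 ⊆ st'.2.1 ∧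
        ∀ n ≤ k, ∀ a : Fn D1, {x | a.f x ≠ none} ⊆ st.2.1 → a ≤ p₀.1 →
          ∃ a' ≤ a, {x | a'.f x ≠ none} ⊆ st'.2.1 ∧ (a', st'.1.1) ∈ 𝒟 n := by
    intro k st
    obtain ⟨b', hb', T, hT, h⟩ := fusion_finite hdown hdense
      ((finite_Fn st.2.1 st.2.2).toFinset ×ˢ Finset.range (k + 1)) st.1.1 st.1.2
    refine ⟨(⟨b', hb'.trans st.1.2⟩, ⟨st.2.1 ∪ T, st.2.2.union hT⟩), hb', subset_union_left, ?_⟩
    intro n hn a ha hap
    obtain ⟨a', h1, h2, h3⟩ := h (a, n) (by simp; exact ⟨ha, by omega⟩) hap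
    exact ⟨a', h1, h2.trans subset_union_right, h3⟩
  choose nx hnx1 hnx2 hnx3 using hstep
  let st : ℕ → {b : Cn D2 // b ≤ p₀.2} × {T : Set D1 // T.Finite} := fun k =>
    Nat.rec (⟨p₀.2, le_rfl⟩, ⟨{x | p₀.1.f x ≠ none}, p₀.1.sm⟩) (fun k s => nx k s) k
  have hst : ∀ k, st (k + 1) = nx k (st k) := fun k => rfl
  obtain ⟨b, hb⟩ := exists_inf (fun k => (st k).1.1) (fun k => by rw [hst]; exact hnx1 _ _)
  have hTmono : Monotone (fun k => (st k).2.1) :=
    monotone_nat_of_le_succ (fun k => by rw [hst]; exact hnx2 _ _)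
  refine ⟨b, hb 0, ⋃ k, {a : Fn D1 | {x | a.f x ≠ none} ⊆ (st k).2.1},
    Set.countable_iUnion (fun k => (finite_Fn _ (st k).2.2).countable), ?_⟩
  intro n q hq
  -- restrict q.1
  let T : Set D1 := ⋃ k, (st k).2.1
  let a : Fn D1 := ⟨fun x => if x ∈ T then q.1.f x else none, by
    refine q.1.sm.subset ?_
    intro x hx
    by_cases hxT : x ∈ T
    · simpa [hxT] using hx
    · simp [hxT] at hx⟩
  have haT : {x | a.f x ≠ none} ⊆ T := by
    intro x hx
    by_contra hxT
    simp [a, hxT] at hx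
  have hk : ∀ x ∈ {x | a.f x ≠ none}, ∃ k, x ∈ (st k).2.1 := fun x hx => mem_iUnion.1 (haT hx)
  choose! κ hκ using hk
  let K := max (a.sm.toFinset.sup κ) n
  have hK : {x | a.f x ≠ none} ⊆ (st K).2.1 := by
    intro x hx
    have h1 : κ x ≤ a.sm.toFinset.sup κ := Finset.le_sup (by simpa using hx)
    exact hTmono (h1.trans (le_max_left _ _)) (hκ x hx)
  have hap : a ≤ p₀.1 := by
    intro x v hv
    have hx : x ∈ T := mem_iUnion.2 ⟨0, by
      show p₀.1.f x ≠ none
      simp [hv]⟩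
    show (if x ∈ T then q.1.f x else none) = some v
    rw [if_pos hx]
    exact hq.1 x v hv
  obtain ⟨a', h1, h2, h3⟩ := hnx3 K (st K) n (le_max_right _ _) a hK hap
  rw [← hst] at h2 h3
  refine ⟨a', mem_iUnion.2 ⟨K + 1, h2⟩, hdown _ _ h3 _ ⟨le_rfl, hb (K + 1)⟩, ?_⟩
  obtain ⟨r, hr1, hr2, _⟩ := PF.exists_union Finite_union Finite_sub (p := q.1) (q := a') (by
    intro x v v' hv hv'
    have hx : x ∈ T := mem_iUnion.2 ⟨K + 1, h2 (by simp [hv'])⟩
    have h4 : a.f x = some v := by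
      show (if x ∈ T then q.1.f x else none) = some v
      rw [if_pos hx]; exact hv
    have h5 := h1 x v h4
    rw [h5] at hv'
    exact Option.some.inj hv')
  exact ⟨(r, q.2), ⟨hr1, le_rfl⟩, ⟨hr2, hq.2⟩⟩

end Pool.Agent.R591.SPL
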